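import Pool.Agent.H7.KQ.Stmts

/-!
# Row `BPR` of the board `kq`: a product is at most the balanced product
-/

set_option autoImplicit false

open Finset

namespace Pool.KQ

open Pool.Agent.H23.KT Pool.Agent.H46.KW

theorem bpr : BPRStmt := by
  intro n
  induction n with
  | zero =>
    intro x
    rw [Fin.prod_univ_one, Fin.sum_univ_one]
    exact (bal_one (x 0)).ge
  | succ n ih =>
    intro x
    rw [Fin.prod_univ_succ, Fin.sum_univ_succ]
    have h := ih (fun i => x i.succ)
    calc x 0 * ∏ i : Fin (n + 1), x i.succ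
        ≤ x 0 * bal (n + 1) (∑ i : Fin (n + 1), x i.succ) := Nat.mul_le_mul_left _ h
      _ ≤ bal (n + 1 + 1) ((∑ i : Fin (n + 1), x i.succ) + x 0) := by
        apply bal_mul
        omega
      _ = bal (n + 1 + 1) (x 0 + ∑ i : Fin (n + 1), x i.succ) := by
        rw [add_comm (x 0)]

end Pool.KQ
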